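import Pool.Agent.Lib.MP_479d4c_gt.Final

/-!
A compact embedded surface of constant mean curvature whose boundary is a convex planar curve need
not lie on one side of the plane of its boundary.

The example is a disc close to a round sphere minus a small hole whose boundary is close to an
ellipse with semi-axes in the ratio `3 : 1`.  It is given by two spinor components `ψ, φ` on the
disc, which solve `∂̄ψ = - d s k̄ φ̄`, `∂̄φ = s k̄ ψ̄`, `s = |ψ|² + d |φ|²`, with a holomorphic
function `k` (the Hopf differential).  The solution is found by the inverse function theorem in a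
Banach algebra of power series in `w` and `w̄`; the planarity of the boundary is one more equation,
linear in the first order in `k`.
-/

set_option autoImplicit false

namespace Pool.Agent.Results.MP_479d4c_gt.NotOneSide

open Matrix Metric

/-- The derivative of `X : ℂ → ℝ³` at `p` in the direction `v`; `v = 1` and `v = I` are the two
coordinate directions of the parameter plane. -/
noncomputable def dir (X : ℂ → Fin 3 → ℝ) (v p : ℂ) : Fin 3 → ℝ := fderiv ℝ X p v

/-- The normal vector `X_u × X_v` (not normalised). -/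
noncomputable def nrm (X : ℂ → Fin 3 → ℝ) (p : ℂ) : Fin 3 → ℝ :=
  dir X 1 p ⨯₃ dir X Complex.I p

/-- The mean curvature `(E N - 2 F M + G L) / (2 (E G - F²))` of the parametrised surface `X`, with
`E, F, G` the coefficients of the first and `L, M, N` those of the second fundamental form for the
unit normal `nrm X / |nrm X|`. -/
noncomputable def meanCurvature (X : ℂ → Fin 3 → ℝ) (p : ℂ) : ℝ :=
  let Xu := dir X 1 p
  let Xv := dir X Complex.I p
  let Xuu := dir (dir X 1) 1 p
  let Xuv := dir (dir X 1) Complex.I p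
  let Xvv := dir (dir X Complex.I) Complex.I p
  let n := (Real.sqrt (nrm X p ⬝ᵥ nrm X p))⁻¹ • nrm X p
  ((Xu ⬝ᵥ Xu) * (Xvv ⬝ᵥ n) - 2 * (Xu ⬝ᵥ Xv) * (Xuv ⬝ᵥ n) + (Xv ⬝ᵥ Xv) * (Xuu ⬝ᵥ n)) /
    (2 * ((Xu ⬝ᵥ Xu) * (Xv ⬝ᵥ Xv) - (Xu ⬝ᵥ Xv) ^ 2))

/-- There is a compact embedded disc `X` (real analytic up to the boundary, injective, immersed) of
constant mean curvature `H ≠ 0` whose boundary curve is the boundary of a (strictly) convex domain
`D` in the plane `x₃ = 0`, and which has points strictly on both sides of this plane. -/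
theorem result : ∃ (X : ℂ → Fin 3 → ℝ) (U : Set ℂ) (H : ℝ) (D : Set (ℝ × ℝ)),
    IsOpen U ∧ closedBall 0 1 ⊆ U ∧ AnalyticOnNhd ℝ X U ∧
    Set.InjOn X (closedBall 0 1) ∧
    (∀ p ∈ closedBall (0 : ℂ) 1, nrm X p ≠ 0) ∧
    H ≠ 0 ∧ (∀ p ∈ closedBall (0 : ℂ) 1, meanCurvature X p = H) ∧
    IsOpen D ∧ D.Nonempty ∧ Bornology.IsBounded D ∧ Convex ℝ D ∧ StrictConvex ℝ (closure D) ∧
    X '' sphere 0 1 = (fun q : ℝ × ℝ => ![q.1, q.2, 0]) '' frontier D ∧
    (∃ p ∈ closedBall (0 : ℂ) 1, 0 < X p 2) ∧ (∃ p ∈ closedBall (0 : ℂ) 1, X p 2 < 0) :=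
  CMC82.H95.final

end Pool.Agent.Results.MP_479d4c_gt.NotOneSide
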